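import Pool.Agent.J4H1.AX.All

/-!
# A one-sided regularity criterion for axisymmetric solutions

Let `u` be an axisymmetric smooth solution of the Navier-Stokes equations with viscosity `ν` in an
open set `Ω` up to the time `T`, and let `a ∈ Ω` be a point of the axis. If `u` is unbounded near
`(T, a)`, then there are, arbitrarily close to `(T, a)`, points with a strong inflow towards the
axis, `v_ρ < -(2 ν / ρ) (1 - (α + 1) / L) - (c / (T - t) + B(t)) ρ`, `L = log ((ν (T-t))^(2c) / ρ²)`.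
Moreover at these points the swirl `ρ v_θ` is not small, the radial component of the vorticity is
zero, the angular velocity and the axial component of the vorticity have the same sign, and
`ρ² < (ν (T - t))^(2c)`. Here `c < 1/2`, `α > 3/2` and the integrable function `B` are arbitrary.
No boundary condition is used.

The proof puts together the parts of the unfinished project AXP of the starting library (modules
`AXI`, `AXP`, `AX` of `Q16`, `Q24`, `Q65`, `Q67`, `Q95`, `Q111`, `Q119`, `Q149`, `Q150`, `Q151`,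
`Q153`, `Q175`, `Q182`, `Q257`, `Q285`) and proves its missing step, the bound of `v_θ / ρ`
(`Pool.Agent.J4H1.AX.BtP`).
-/

set_option autoImplicit false

open MeasureTheory Set Metric Filter Topology
open scoped ContDiff

namespace Pool.Agent.Results.MP_fd8964_an.AxisymmetricInflow

/-- Points and vectors; the axis is the third coordinate axis. -/
abbrev V := Fin 3 → ℝ

/-- The partial derivative `∂ⱼ f`. -/
noncomputable def pd (j : Fin 3) (f : V → ℝ) (x : V) : ℝ := fderiv ℝ f x (Pi.single j 1)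

/-- `(u, p)` is a smooth solution of the Navier-Stokes equations with viscosity `ν` and without
force on `(0, T) × Ω`, `Ω` open, with `∫ |u|²` over `Ω` bounded in time, `∇u` square integrable
and `p` integrable on `(0, T) × Ω`. -/
structure IsSolution (ν T : ℝ) (Ω : Set V) (u : ℝ → V → V) (p : ℝ → V → ℝ) : Prop where
  isOpen : IsOpen Ω
  smooth_u : ContDiffOn ℝ ∞ (fun z : ℝ × V => u z.1 z.2) (Ioo 0 T ×ˢ Ω)
  smooth_p : ContDiffOn ℝ ∞ (fun z : ℝ × V => p z.1 z.2) (Ioo 0 T ×ˢ Ω)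
  divfree : ∀ t ∈ Ioo 0 T, ∀ x ∈ Ω, ∑ i, pd i (fun y => u t y i) x = 0
  momentum : ∀ t ∈ Ioo 0 T, ∀ x ∈ Ω, ∀ i,
    deriv (fun s => u s x i) t + ∑ j, u t x j * pd j (fun y => u t y i) x
      = ν * ∑ j, pd j (pd j (fun y => u t y i)) x - pd i (p t) x
  energy : ∃ E : ℝ, ∀ t ∈ Ioo 0 T, IntegrableOn (fun x => ∑ i, u t x i ^ 2) Ω ∧
    ∫ x in Ω, ∑ i, u t x i ^ 2 ≤ E
  dissipation : IntegrableOn
    (fun z : ℝ × V => ∑ i, ∑ j, pd j (fun y => u z.1 y i) z.2 ^ 2) (Ioo 0 T ×ˢ Ω)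
  pressure : IntegrableOn (fun z : ℝ × V => p z.1 z.2) (Ioo 0 T ×ˢ Ω)

/-- Rotation about the axis. -/
noncomputable def rot (θ : ℝ) (x : V) : V :=
  ![Real.cos θ * x 0 - Real.sin θ * x 1, Real.sin θ * x 0 + Real.cos θ * x 1, x 2]

/-- `u` is axisymmetric in `Ω`. -/
def Axisymmetric (T : ℝ) (Ω : Set V) (u : ℝ → V → V) : Prop :=
  ∀ t ∈ Ioo 0 T, ∀ (θ : ℝ), ∀ x ∈ Ω, rot θ x ∈ Ω → u t (rot θ x) = rot θ (u t x)

/-- `ρ²`, the square of the distance to the axis. -/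
def rhoSq (x : V) : ℝ := x 0 ^ 2 + x 1 ^ 2

/-- `ρ v_θ`. -/
def swirl (v : V → V) (x : V) : ℝ := x 0 * v x 1 - x 1 * v x 0

/-- `ρ v_ρ`. -/
def radial (v : V → V) (x : V) : ℝ := x 0 * v x 0 + x 1 * v x 1

/-- The curl of `v`. -/
noncomputable def curl (v : V → V) (x : V) : V :=
  ![pd 1 (fun y => v y 2) x - pd 2 (fun y => v y 1) x,
    pd 2 (fun y => v y 0) x - pd 0 (fun y => v y 2) x,
    pd 0 (fun y => v y 1) x - pd 1 (fun y => v y 0) x]

/-- `log ((ν (T - t))^(2c) / ρ²)`. -/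
noncomputable def logScale (ν T c t : ℝ) (x : V) : ℝ :=
  Real.log ((ν * (T - t)) ^ (2 * c) / rhoSq x)

/-- `u` is bounded near `(T, a)`. -/
def BoundedNear (T : ℝ) (u : ℝ → V → V) (a : V) : Prop :=
  ∃ K δ : ℝ, 0 < δ ∧ ∀ t ∈ Ioo 0 T, T - δ < t → ∀ x, ‖x - a‖ ≤ δ → ‖u t x‖ ≤ K

/-- Let `u` be an axisymmetric solution in `Ω` on `(0, T)`, `a ∈ Ω` a point of the axis,
`0 ≤ c < 1/2`, `α > 3/2`, `C ≥ 0`, `B` continuous and integrable on `(0, T)`, `T₀ < T`, `R > 0`.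
Suppose that `ρ v_ρ ≥ ν (-2 + 2 (α + 1) / L) - (c / (T - t) + B(t)) ρ²` at all the points `x` with
`|x - a| ≤ R`, and times `t ∈ (T₀, T)`, for which `0 < ρ² < (ν (T - t))^(2c)`,
`|ρ v_θ| > C L^(-α)`, `ω_ρ = 0` and `v_θ ω₃ > 0`; `ω` is the curl of `u t` and
`L = log ((ν (T - t))^(2c) / ρ²)`. Then `u` is bounded near `(T, a)`. -/
theorem result (ν T : ℝ) (Ω : Set V) (u : ℝ → V → V) (p : ℝ → V → ℝ) (hν : 0 < ν)
    (hu : IsSolution ν T Ω u p) (hax : Axisymmetric T Ω u) (a : V) (ha : a ∈ Ω) (ha0 : a 0 = 0)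
    (ha1 : a 1 = 0) (c α C T₀ R : ℝ) (B : ℝ → ℝ) (hc0 : 0 ≤ c) (hc : c < 1 / 2)
    (hα : 3 / 2 < α) (hC : 0 ≤ C) (hT₀ : T₀ < T) (hR : 0 < R) (hBc : ContinuousOn B (Ioo 0 T))
    (hBi : IntegrableOn B (Ioo 0 T))
    (H : ∀ t ∈ Ioo 0 T, T₀ < t → ∀ x : V, ‖x - a‖ ≤ R → 0 < rhoSq x →
      rhoSq x < (ν * (T - t)) ^ (2 * c) →
      C * logScale ν T c t x ^ (-α) < |swirl (u t) x| → radial (curl (u t)) x = 0 →
      0 < swirl (u t) x * curl (u t) x 2 →
      ν * (-2 + 2 * (α + 1) / logScale ν T c t x) - (c / (T - t) + B t) * rhoSq x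
        ≤ radial (u t) x) :
    BoundedNear T u a := by
  by_contra hreg
  have hs : Pool.Agent.Q85.CL.Sing T u a := by
    intro K δ hδ
    by_contra hcon
    push Not at hcon
    exact hreg ⟨K, δ, hδ, fun t ht ht' x hx => hcon t ht ht' x hx⟩
  obtain ⟨E, hE⟩ := hu.energy
  have hD : Pool.Agent.Q85.CL.DSl ν T E Ω u p :=
    { openO := hu.isOpen
      smooth_u := hu.smooth_u
      smooth_p := hu.smooth_p
      divfree := hu.divfree
      momentum := hu.momentum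
      en_int := fun t ht => (hE t ht).1
      en := fun t ht => (hE t ht).2
      dis := hu.dissipation
      prs := hu.pressure }
  obtain ⟨t, ht, ht0, x, h1, h2, h3, h4, h5, h6, h7⟩ :=
    Pool.Agent.Q67.AXI.infl_D2 Pool.Agent.J4H1.AX.mainP Pool.Agent.J4H1.AX.tra hν hD hax ha ha0
      ha1 hs B c α C T₀ R hBc hBi hc0 hc hα hC hT₀ hR
  exact absurd (H t ht ht0 x h1 h2 h3 h4 h5 h6) (not_le.2 h7)

end Pool.Agent.Results.MP_fd8964_an.AxisymmetricInflow
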