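import Pool.Agent.J4H18.DN.L16
import Pool.Agent.W52.TQ.Univ
import Pool.Agent.W52.TQ.Loc
import Pool.Agent.W503.TQ.Uni
import Pool.Agent.W503.TQ.Est1
import Pool.Agent.W790.TQ.Est2
import Pool.Agent.W347.TQ.Ode

/-!
# Initial velocities with global strong solutions are dense in `H⁻¹`

In every bounded open set `Ω`, for every functional `u₀ ∈ H⁻¹` (the dual of `H¹_{0,σ}(Ω)`) and every
force of the asked class with `F, ∂ₜF ∈ L²` up to the horizon `T ≤ ∞`: there are smooth divergence
free initial velocities `a` with compact support in `Ω`, as close as one likes to `u₀` in `H⁻¹`,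
with strong solutions `u` up to `T`. The behaviour of these solutions after the time `ε` can be
prescribed, independently of `u₀`: `u` is `ε`-close in `L²` on `[ε, T]` to any given strong
solution `v` with the same force, for example (without force) to `v = 0`.

The initial velocity is changed in many stages by fields `N A cos(N φ) + N B sin(N φ)` with the
phase `φ` the distance from a circle and with rapidly increasing frequencies `N`. In `n` stages
with amplitudes of size `n^{-1/2}` such a field is dissipated in the time `O(N⁻²)`, and its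
interaction with itself adds, in this time, a field `h / n` to the velocity. The fields `h`
obtained on all small tori in `Ω` span a dense subspace of `H⁻¹` (a field in `H¹_{0,σ}(Ω)`
orthogonal to them is a gradient).

The sum of the `n` oscillating fields is of size `O(1)` in `H⁻¹`. It is made small as follows. The
amplitudes are concentrated near a circle, on a set of measure `μ`, where they are of size
`μ^{-1/2}`; then the change of the velocity produced is the same up to an error small in `H⁻¹`,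
while the potentials of the oscillating fields are small in `L¹`. Each oscillating field is removed
from the initial velocity and is produced instead, in a much shorter time, by fields of the same
kind on tori much smaller than its wave length; the sum of the squares of the norms in `H⁻¹` of
the latter is of the order of the norm in `L¹` of the potential removed.
-/

set_option autoImplicit false

open MeasureTheory Set
open scoped InnerProductSpace ENNReal ContDiff

namespace Pool.Agent.Results.MP_fd8964_an.DenseGlobalData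

open H772R2.NS.Pub
open Pool.Agent.J4H18.DN (gradNorm)

/-- Let `Ω` be a bounded open set, `ν > 0`, `0 < T ≤ ∞`, `ε > 0`; let the force be `-div F`,
`⟨f, ψ⟩ = (F, ∇ψ)`, with `F ∈ H¹(0,t;L²)` for all finite `t ≤ T`, `F, ∂ₜF ∈ L²(0,T;L²)` and
`f(0) ∈ L²`; let `v` be a strong solution with this force on `[0,t]` for all finite `t ≤ T`; and
let the functional `u₀` on the divergence free test fields be given by
`⟨u₀, ψ⟩ = (g, ψ) + (U, ∇ψ)` with `g, U ∈ L²`. There are a smooth divergence free `a` with compact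
support in `Ω` such that `|(a, ψ) - ⟨u₀, ψ⟩| ≤ ε ‖∇ψ‖` for all `ψ`, and `u` with `u(0) = a` which
for all finite `t ≤ T` is a strong solution on `[0,t]` with the same force, such that
`‖u(t) - v(t)‖ ≤ ε` for `ε ≤ t ≤ T`. -/
theorem result (Ω : Set R3) (hΩ : IsOpen Ω) (hb : Bornology.IsBounded Ω) (ν : ℝ) (hν : 0 < ν)
    (T : ℝ≥0∞) (hT : 0 < T) (F F' : ℝ → L2 Ω Mat)
    (hF : ∀ t : ℝ, 0 < t → ENNReal.ofReal t ≤ T → IsH1 t F F')
    (hF2 : MemLp F 2 (volume.restrict {t : ℝ | 0 < t ∧ ENNReal.ofReal t ≤ T}))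
    (hF2' : MemLp F' 2 (volume.restrict {t : ℝ | 0 < t ∧ ENNReal.ofReal t ≤ T}))
    (hf0 : ∃ h : L2 Ω R3, ∀ ψ, IsTest Ω ψ →
      (∫ x in Ω, ⟪(F 0).fn x, jac ψ x⟫_ℝ) = ∫ x in Ω, ⟪h.fn x, ψ x⟫_ℝ)
    (v : ℝ → L2 Ω R3)
    (hv : ∀ t : ℝ, 0 < t → ENNReal.ofReal t ≤ T → ∃ v' G G', IsStrong Ω ν t F v v' G G')
    (g : L2 Ω R3) (U : L2 Ω Mat) (ε : ℝ) (hε : 0 < ε) :
    ∃ (a : R3 → R3) (u u' : ℝ → L2 Ω R3) (G G' : ℝ → L2 Ω Mat), IsTest Ω a ∧
      (∀ ψ, IsTest Ω ψ →
        |(∫ x in Ω, ⟪a x, ψ x⟫_ℝ)
          - ((∫ x in Ω, ⟪g.fn x, ψ x⟫_ℝ) + ∫ x in Ω, ⟪U.fn x, jac ψ x⟫_ℝ)|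
        ≤ ε * gradNorm ψ) ∧
      IsClass (u 0) a ∧
      (∀ t : ℝ, 0 < t → ENNReal.ofReal t ≤ T → IsStrong Ω ν t F u u' G G') ∧
      ∀ t : ℝ, ε ≤ t → ENNReal.ofReal t ≤ T → ‖u t - v t‖ ≤ ε := by
  obtain ⟨a, u, u', G, G', h1, h2, h3, h4, h5⟩ := Pool.Agent.J4H18.DN.pub_horV
    Pool.Agent.W52.TQ.proof_loc Pool.Agent.W52.TQ.proof_univ Pool.Agent.W503.TQ.proof_uni
    Pool.Agent.W347.TQ.proof_ode Pool.Agent.W503.TQ.proof_est1 Pool.Agent.W790.TQ.proof_est2
    hΩ hb hν hT hF hF2 hF2'
    (by
      obtain ⟨h, hh⟩ := hf0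
      exact ⟨h, fun ψ hψ => hh ψ ((isTest_iff ψ).mpr hψ)⟩)
    hv g U hε
  exact ⟨a, u, u', G, G', (isTest_iff a).mpr h1,
    fun ψ hψ => h2 ψ ((isTest_iff ψ).mp hψ), h3, h4, h5⟩

end Pool.Agent.Results.MP_fd8964_an.DenseGlobalData
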