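import Pool.Agent.J4H18.DN.L16
import Pool.Agent.W52.TQ.Univ
import Pool.Agent.W52.TQ.Loc
import Pool.Agent.W503.TQ.Uni
import Pool.Agent.W503.TQ.Est1
import Pool.Agent.W790.TQ.Est2
import Pool.Agent.W347.TQ.Ode

/-!
# Every initial velocity in `H⁻¹` is attained by a solution which is regular for positive times

In every bounded open set `Ω`, for every functional `u₀ ∈ H⁻¹` (the dual of `H¹_{0,σ}(Ω)`; in
particular for every velocity in `L²` or in `H²`), every force of the asked class with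
`F, ∂ₜF ∈ L²` up to the horizon `T ≤ ∞`, and every strong solution `v` with this force: there is a
solution `u` on `(0,T]` which is a strong solution on `[s,t]` for all `0 < s < t ≤ T`, attains the
initial value `u₀` in the norm of `H⁻¹` as `t → 0`, and is `ε`-close to `v` in `L²` on `[ε,T]`. So
the solutions which are regular for all positive times exist for all initial values, and are far
from unique.

The solution is the limit of strong solutions `u_n` with smooth initial values, obtained from one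
another by the perturbation of the initial value by high frequency fields small in `H⁻¹`, whose
interaction moves the solution towards `u₀` in the dual norm (see the file `DenseGlobalData`). The
path of each stage near the initial time is controlled: up to errors small in `H⁻¹` it runs on the
segment between the old and the new initial value.
-/

set_option autoImplicit false

open MeasureTheory Set
open scoped InnerProductSpace ENNReal ContDiff

namespace Pool.Agent.Results.MP_fd8964_an.RegularForPositiveTimes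

open H772R2.NS.Pub
open Pool.Agent.J4H18.DN (gradNorm)

/-- Let `Ω` be a bounded open set, `ν > 0`, `0 < T ≤ ∞`, `ε > 0`; let the force be `-div F`,
`⟨f, ψ⟩ = (F, ∇ψ)`, with `F ∈ H¹(0,t;L²)` for all finite `t ≤ T`, `F, ∂ₜF ∈ L²(0,T;L²)` and
`f(0) ∈ L²`; let `v` be a strong solution with this force on `[0,t]` for all finite `t ≤ T`; and
let the functional `u₀` on the divergence free test fields be given by
`⟨u₀, ψ⟩ = (g, ψ) + (U, ∇ψ)` with `g, U ∈ L²`. There is `u` on `(0,T]` which is a strong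
solution with the same force on `[s,t]` for all finite `0 < s < t ≤ T`, with
`‖u(t) - v(t)‖ ≤ ε` for `ε ≤ t ≤ T`, and with `u(t) → u₀` in `H⁻¹` as `t → 0`: for every `δ > 0`
and all small `t > 0`, `|(u(t), ψ) - ⟨u₀, ψ⟩| ≤ δ ‖∇ψ‖` for all `ψ`. -/
theorem result (Ω : Set R3) (hΩ : IsOpen Ω) (hb : Bornology.IsBounded Ω) (ν : ℝ) (hν : 0 < ν)
    (T : ℝ≥0∞) (hT : 0 < T) (F F' : ℝ → L2 Ω Mat)
    (hF : ∀ t : ℝ, 0 < t → ENNReal.ofReal t ≤ T → IsH1 t F F')
    (hF2 : MemLp F 2 (volume.restrict {t : ℝ | 0 < t ∧ ENNReal.ofReal t ≤ T}))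
    (hF2' : MemLp F' 2 (volume.restrict {t : ℝ | 0 < t ∧ ENNReal.ofReal t ≤ T}))
    (hf0 : ∃ h : L2 Ω R3, ∀ ψ, IsTest Ω ψ →
      (∫ x in Ω, ⟪(F 0).fn x, jac ψ x⟫_ℝ) = ∫ x in Ω, ⟪h.fn x, ψ x⟫_ℝ)
    (v : ℝ → L2 Ω R3)
    (hv : ∀ t : ℝ, 0 < t → ENNReal.ofReal t ≤ T → ∃ v' G G', IsStrong Ω ν t F v v' G G')
    (g : L2 Ω R3) (U : L2 Ω Mat) (ε : ℝ) (hε : 0 < ε) :
    ∃ u : ℝ → L2 Ω R3,
      (∀ s t : ℝ, 0 < s → s < t → ENNReal.ofReal t ≤ T → ∃ u' G G',
        IsStrong Ω ν (t - s) (fun r => F (s + r)) (fun r => u (s + r)) u' G G') ∧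
      (∀ t : ℝ, ε ≤ t → ENNReal.ofReal t ≤ T → ‖u t - v t‖ ≤ ε) ∧
      ∀ δ : ℝ, 0 < δ → ∃ τ : ℝ, 0 < τ ∧ ∀ t : ℝ, 0 < t → t ≤ τ → ENNReal.ofReal t ≤ T →
        ∀ ψ, IsTest Ω ψ →
          |(∫ x in Ω, ⟪(u t).fn x, ψ x⟫_ℝ)
            - ((∫ x in Ω, ⟪g.fn x, ψ x⟫_ℝ) + ∫ x in Ω, ⟪U.fn x, jac ψ x⟫_ℝ)|
          ≤ δ * gradNorm ψ := by
  obtain ⟨u, h1, h2, h3⟩ := Pool.Agent.J4H18.DN.pub_WV
    Pool.Agent.W52.TQ.proof_loc Pool.Agent.W52.TQ.proof_univ Pool.Agent.W503.TQ.proof_uni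
    Pool.Agent.W347.TQ.proof_ode Pool.Agent.W503.TQ.proof_est1 Pool.Agent.W790.TQ.proof_est2
    hΩ hb hν hT hF hF2 hF2'
    (by
      obtain ⟨h, hh⟩ := hf0
      exact ⟨h, fun ψ hψ => hh ψ ((isTest_iff ψ).mpr hψ)⟩)
    hv g U hε
  refine ⟨u, h1, h2, fun δ hδ => ?_⟩
  obtain ⟨τ, hτ, h4⟩ := h3 δ hδ
  exact ⟨τ, hτ, fun t ht ht' hT' ψ hψ => h4 t ht ht' hT' ψ ((isTest_iff ψ).mp hψ)⟩

end Pool.Agent.Results.MP_fd8964_an.RegularForPositiveTimes
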