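import Pool.Agent.J4H12.VL.Main
import Pool.Agent.J4H12.VL.GoodS

/-!
# Closed chains of vortex lines near an interior singular point

Let `u` be a smooth solution of the Navier-Stokes equations (viscosity `ν`, no force or a potential
force contained in the pressure `p`) in an open set `Ω` of the space, on the time interval
`(0, T)`, with bounded energy, finite dissipation and integrable pressure. No boundary condition is
used. Let `a` be an interior singular point at the time `T`. Then there are open intervals of times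
arbitrarily close to `T` at which, in the given cube around `a`, for every orientation `θ` of the
vorticity `ω`, the arcs of vortex lines (curves of `θ ω / |ω|`) in the region
`|ω| > m + M |u|^α` form closed chains with total gaps less than `ε` times the total length. Here
`M ≥ 0`, `0 ≤ α < 4 / 3`, and `m` is any nonnegative function, continuous in the space variable, in
the Kato class uniformly in the time. At the same times the vorticities are in no double cone
`|e · ω| ≥ ε |ω|`, and every angle between `0` and `arccos ε` occurs, up to every `δ`, between each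
nonzero vorticity and another one.

`V = Fin 3 → ℝ` with the maximum norm, `len` the Euclidean length, `vort v` the curl and
`om v = len (vort v)`.
-/

set_option autoImplicit false

open MeasureTheory Set Metric
open scoped ContDiff

namespace Pool.Agent.Results.MP_fd8964_an.VortexChains

open H459R3.NS Pool.Agent.W268.NS Pool.Agent.Q67.VD Pool.Agent.Q85.CL Pool.Agent.Q85.VL

theorem result : ∀ (ν T E : ℝ) (Ω : Set V) (u : ℝ → V → V) (p : ℝ → V → ℝ), 0 < ν →
    DSl ν T E Ω u p → ∀ (a : V) (R : ℝ), 0 < R → closedBall a R ⊆ Ω → Sing T u a →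
    ∀ (T₀ ε α M : ℝ) (m : ℝ → V → ℝ), 0 ≤ T₀ → T₀ < T → 0 < ε → 0 ≤ α → α < 4 / 3 → 0 ≤ M →
      (∀ t ∈ Ioo T₀ T, Continuous (m t)) → (∀ t ∈ Ioo T₀ T, ∀ y, 0 ≤ m t y) → Kato T₀ T a R m →
    ∃ t₁ t₂ : ℝ, T₀ ≤ t₁ ∧ t₁ < t₂ ∧ t₂ ≤ T ∧ ∀ t ∈ Ioo t₁ t₂,
      (∀ θ : V → ℝ, Orient θ a R (vort (u t)) → Chained (fun y => θ y • vort (u t) y)
        {y | ‖y - a‖ ≤ R ∧ m t y + M * ‖u t y‖ ^ α < om (u t) y} ε) ∧
      (∀ e : V, e ⬝ᵥ e = 1 → ∃ y, ‖y - a‖ ≤ R ∧ |e ⬝ᵥ vort (u t) y| < ε * om (u t) y) ∧
      ∀ x, ‖x - a‖ ≤ R → vort (u t) x ≠ 0 → ∀ c δ : ℝ, ε ≤ c → c ≤ 1 → 0 < δ →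
        ∃ y, ‖y - a‖ ≤ R ∧ vort (u t) y ≠ 0 ∧
          |(|vort (u t) x ⬝ᵥ vort (u t) y| - c * (om (u t) x * om (u t) y))|
            < δ * (om (u t) x * om (u t) y) := by
  intro ν T E Ω u p hν h a R hR hΩ hs T₀ ε α M m hT0 hT₀ hε hα0 hα hM hmc hm0 hK
  exact Pool.Agent.J4H12.VL.final2 Pool.Agent.J4H12.VL.goodS hν h hR hΩ hs hT0 hT₀ hε hα0 hα hM
    hmc hm0 hK

end Pool.Agent.Results.MP_fd8964_an.VortexChains
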